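import Pool.Agent.Q63.Win2.Diff

/-!
The barrier and the choice of the parameters, with a general bound of the frequencies in the
window.
-/

open MeasureTheory Set Filter Topology
open scoped ENNReal

namespace Pool.Agent.Q63.Win2

open H459R3.NS Pool.Agent.Q63.Win

section

variable {m : K3 → ℝ} {T ν : ℝ} {c : ℝ → Fam}

/-- The barrier. -/
theorem barrier' (h : FSol m T c) (hm : Pol m) (hν : 0 < ν)
    (hmν : ∀ k, 36 * ν * (N k : ℝ) ^ 2 ≤ m k) {a : ℝ} (ha : 0 < a)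
    {M K κ L : ℕ} (hM : 1 ≤ M) (hK : 1 ≤ K) {E : ℝ} (hE0 : 0 ≤ E)
    (hE : XX (fun _ => 1) (amp (c a)) ≤ E ^ 2) {g : ℝ → ℝ}
    (hg0 : ∀ t, 0 ≤ g t) (hgc : ContinuousOn g (Ioo 0 T))
    (h1 : C1 M * (As 0 * (κ : ℝ) ^ (5 / 2 : ℝ) * E) ≤ ν * (L : ℝ) ^ 2)
    (h2 : ∀ t ∈ Ico a T, ∀ n : ℕ,
      C1 M * SnW (amp (c t)) κ K (2 * n) ≤ ν * (n : ℝ) ^ 2 + g t)
    {η ε G : ℝ} (hη : 0 ≤ η) (h3 : C1 M * (As (1 / 2) * 4 * η) ≤ ν) (hε : 0 < ε)
    (hε1 : C1 M * (As 0 * (κ : ℝ) ^ (5 / 2 : ℝ) * E) * ff M K L * E ^ 2 ≤ ε)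
    (hG : ∀ t ∈ Ico a T, ∫ τ in a..t, g τ ≤ G)
    (hsm : Real.exp G * (XX (phi M K) (amp (c a)) + 2 * ε * (T - a)) ≤ η ^ 2) :
    ∀ t ∈ Ico a T, XX (phi M K) (amp (c t)) ≤ η ^ 2 := by
  intro t ht
  have hC := C1_nonneg M
  have hwt := wt_phi hM hK
  have hPφ := pol_phi hM hK
  have hIoo : ∀ τ ∈ Icc a t, τ ∈ Ioo 0 T := fun τ hτ => ⟨ha.trans_le hτ.1, hτ.2.trans_lt ht.2⟩
  have haT : a < T := ht.1.trans_lt ht.2
  have hgi : ∀ τ ∈ Icc a t, IntervalIntegrable g volume a τ := by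
    intro τ hτ
    refine ContinuousOn.intervalIntegrable ?_
    rw [uIcc_of_le hτ.1]
    exact hgc.mono fun r hr => hIoo r ⟨hr.1, hr.2.trans hτ.2⟩
  have hGd : ∀ τ ∈ Icc a t, HasDerivAt (fun r => ∫ x in a..r, g x) (g τ) τ := by
    intro τ hτ
    refine intervalIntegral.integral_hasDerivAt_right (hgi τ hτ) ?_ ?_
    · exact hgc.stronglyMeasurableAtFilter isOpen_Ioo τ (hIoo τ hτ)
    · exact hgc.continuousAt (Ioo_mem_nhds (hIoo τ hτ).1 (hIoo τ hτ).2)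
  set X0 := XX (phi M K) (amp (c a)) with hX0
  have hX0' : 0 ≤ X0 := XX_nonneg hwt.nonneg
  set B : ℝ → ℝ := fun τ => Real.exp (∫ x in a..τ, g x) * (X0 + 2 * ε * (τ - a)) with hB
  have hBd : ∀ τ ∈ Icc a t, HasDerivAt B
      (Real.exp (∫ x in a..τ, g x) * g τ * (X0 + 2 * ε * (τ - a))
        + Real.exp (∫ x in a..τ, g x) * (2 * ε)) τ := by
    intro τ hτ
    have e1 : HasDerivAt (fun r : ℝ => X0 + 2 * ε * (r - a)) (2 * ε) τ := by
      have := (((hasDerivAt_id τ).sub_const a).const_mul (2 * ε)).const_add X0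
      simpa using this
    exact (hGd τ hτ).exp.mul e1
  have hBle : ∀ τ ∈ Icc a t, B τ ≤ η ^ 2 := by
    intro τ hτ
    refine le_trans ?_ hsm
    have e1 := hG τ ⟨hτ.1, hτ.2.trans_lt ht.2⟩
    have e2 : 0 ≤ X0 + 2 * ε * (τ - a) := by
      have : 0 ≤ τ - a := sub_nonneg.2 hτ.1
      positivity
    have e3 : X0 + 2 * ε * (τ - a) ≤ X0 + 2 * ε * (T - a) := by
      have : τ - a ≤ T - a := by linarith [hτ.2, ht.2]
      gcongr
    exact mul_le_mul (Real.exp_le_exp.2 e1) e3 e2 (Real.exp_pos _).le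
  have hXd : ∀ τ ∈ Icc a t, HasDerivAt (fun r => XX (phi M K) (amp (c r)))
      (-(2 * XX (fun k => phi M K k * m k) (amp (c τ))) - 2 * prod (phi M K) (c τ)) τ :=
    fun τ hτ => h.hasDerivAt_XX hm hPφ (hIoo τ hτ)
  have key := image_le_of_deriv_right_lt_deriv_boundary'
    (f := fun r => XX (phi M K) (amp (c r)))
    (f' := fun τ => -(2 * XX (fun k => phi M K k * m k) (amp (c τ))) - 2 * prod (phi M K) (c τ))
    (a := a) (b := t) (B := B)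
    (B' := fun τ => Real.exp (∫ x in a..τ, g x) * g τ * (X0 + 2 * ε * (τ - a))
        + Real.exp (∫ x in a..τ, g x) * (2 * ε))
    (fun τ hτ => (hXd τ hτ).continuousAt.continuousWithinAt)
    (fun τ hτ => (hXd τ ⟨hτ.1, hτ.2.le⟩).hasDerivWithinAt) (by simp [hB, hX0])
    (fun τ hτ => (hBd τ hτ).continuousAt.continuousWithinAt)
    (fun τ hτ => (hBd τ ⟨hτ.1, hτ.2.le⟩).hasDerivWithinAt) ?_ (right_mem_Icc.2 ht.1)
  · exact key.trans (hBle t (right_mem_Icc.2 ht.1))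
  · intro τ hτ heq
    have hτI : τ ∈ Icc a t := ⟨hτ.1, hτ.2.le⟩
    have hτT : τ ∈ Ico a T := ⟨hτ.1, hτ.2.trans ht.2⟩
    have hR := (h.rapV (hIoo τ hτI)).rapR
    have hXη : Real.sqrt (XX (phi M K) (amp (c τ))) ≤ η := by
      rw [heq]
      exact Real.sqrt_le_iff.2 ⟨hη, hBle τ hτI⟩
    have hEτ : XX (fun _ => 1) (amp (c τ)) ≤ E ^ 2 :=
      (h.energy_anti hm hν.le hmν ha hτT).trans hE
    have h3' : C1 M * (As (1 / 2) * 4 * Real.sqrt (XX (phi M K) (amp (c τ)))) ≤ ν := by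
      refine le_trans ?_ h3
      have := As_nonneg (1 / 2)
      gcongr
    have hdi := diff_ineq' (amp_nonneg (c τ)) hR (κ := κ) (L := L) hM hK hE0 hEτ hν hC
      (hg0 τ) h1 (h2 τ hτT) h3'
    have hle := h.deriv_le hm hmν hwt hPφ (hIoo τ hτI)
    have hY : 0 ≤ XX (fun k => phi M K k * (N k : ℝ) ^ 2) (amp (c τ)) :=
      XX_nonneg fun k => mul_nonneg (hwt.nonneg k) (sq_nonneg _)
    have hexp : 1 ≤ Real.exp (∫ x in a..τ, g x) := by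
      apply Real.one_le_exp
      exact intervalIntegral.integral_nonneg hτ.1 fun x _ => hg0 x
    have hBval : g τ * XX (phi M K) (amp (c τ))
        = Real.exp (∫ x in a..τ, g x) * g τ * (X0 + 2 * ε * (τ - a)) := by
      have : XX (phi M K) (amp (c τ)) = B τ := heq
      rw [this, hB]
      ring
    calc -(2 * XX (fun k => phi M K k * m k) (amp (c τ))) - 2 * prod (phi M K) (c τ)
        ≤ -(72 * ν * XX (fun k => phi M K k * (N k : ℝ) ^ 2) (amp (c τ)))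
          + C1 M * QR (phi M K) (amp (c τ)) := hle
      _ ≤ g τ * XX (phi M K) (amp (c τ)) + ε := by nlinarith
      _ < Real.exp (∫ x in a..τ, g x) * g τ * (X0 + 2 * ε * (τ - a))
        + Real.exp (∫ x in a..τ, g x) * (2 * ε) := by
          rw [hBval]
          nlinarith


theorem window' (h : FSol m T c) (hm : Pol m) (hν : 0 < ν)
    (hmν : ∀ k, 36 * ν * (N k : ℝ) ^ 2 ≤ m k) {θ : ℝ} (hθ0 : 0 < θ) (hθ : θ < 4 / 5) {M : ℕ}
    (hM4 : 4 ≤ M) (hMl : 4 ≤ (M : ℝ) * (1 - lam θ)) {a : ℝ} (ha : 0 < a)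
    (haT : a < T) :
    ∀ᶠ K : ℕ in atTop, ∀ g : ℝ → ℝ, (∀ t, 0 ≤ g t) → ContinuousOn g (Ioo 0 T) →
      (∀ t ∈ Ico a T, ∀ n : ℕ, C1 M * SnW (amp (c t)) ⌊(K : ℝ) ^ θ⌋₊ K (2 * n)
        ≤ ν * (n : ℝ) ^ 2 + g t) →
      (∀ t ∈ Ico a T, ∫ τ in a..t, g τ ≤ 1 / 2 * Real.log K) →
      ∃ C, ∀ t ∈ Ico a T, XX (fun k => (N k : ℝ) ^ 4) (amp (c t)) ≤ C := by
  have hM1 : 1 ≤ M := by omega
  have haI : a ∈ Ioo 0 T := ⟨ha, haT⟩
  have hR := (h.rapV haI).rapR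
  set E := Real.sqrt (XX (fun _ => 1) (amp (c a))) with hEdef
  have hE0 : 0 ≤ E := Real.sqrt_nonneg _
  have hE2 : E ^ 2 = XX (fun _ => 1) (amp (c a)) := Real.sq_sqrt (XX_nonneg fun _ => zero_le_one)
  set XM := XX (fun k => (N k : ℝ) ^ M) (amp (c a)) with hXM
  have hXM0 : 0 ≤ XM := XX_nonneg fun k => by positivity
  have hC := C1_nonneg M
  have hCpos : 0 < C1 M := by
    unfold C1
    have : (0 : ℝ) < M := by exact_mod_cast hM1
    positivity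
  have hA0 := As_nonneg 0
  have hAh : 0 < As (1 / 2) := by
    unfold As
    apply Real.sqrt_pos.2
    apply div_pos (by norm_num)
    apply lt_min <;> norm_num
  set η : ℝ := ν / (C1 M * (As (1 / 2) * 4)) with hη
  have hη0 : 0 < η := by positivity
  have hηeq : C1 M * (As (1 / 2) * 4 * η) = ν := by
    rw [hη]; field_simp
  set D : ℝ := C1 M * As 0 * E ^ 3 * 2 ^ M + 1 with hD
  have hD0 : 0 < D := by positivity
  have hl1 := lam_lt hθ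
  have hl0 : 0 < lam θ := by unfold lam; linarith
  -- the conditions on `K`
  have c1 : ∀ᶠ K : ℕ in atTop, 1 ≤ K := eventually_ge_atTop 1
  have c2 : ∀ᶠ K : ℕ in atTop, C1 M * As 0 * E / ν ≤ (K : ℝ) ^ (2 * lam θ - 5 / 2 * θ) := by
    have h2 : 0 < 2 * lam θ - 5 / 2 * θ := by unfold lam; linarith
    exact ((tendsto_rpow_atTop h2).comp tendsto_natCast_atTop_atTop).eventually_ge_atTop _
  have c3 : ∀ᶠ K : ℕ in atTop, 2 ≤ (K : ℝ) ^ (1 - lam θ) := by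
    have h2 : 0 < 1 - lam θ := by linarith
    exact ((tendsto_rpow_atTop h2).comp tendsto_natCast_atTop_atTop).eventually_ge_atTop _
  have c4 : ∀ᶠ K : ℕ in atTop, (XM + 2 * D * (T - a)) / η ^ 2 ≤ (K : ℝ) ^ (1 / 2 : ℝ) :=
    ((tendsto_rpow_atTop (by norm_num)).comp tendsto_natCast_atTop_atTop).eventually_ge_atTop _
  filter_upwards [c1, c2, c3, c4] with K hK k2 k3 k4 g hg0 hgc h2 hG
  have hKR : (0 : ℝ) < K := by exact_mod_cast hK
  have hK1 : (1 : ℝ) ≤ K := by exact_mod_cast hK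
  set κ := ⌊(K : ℝ) ^ θ⌋₊ with hκ
  set L := ⌈(K : ℝ) ^ lam θ⌉₊ with hL
  have hκle : (κ : ℝ) ≤ (K : ℝ) ^ θ := Nat.floor_le (by positivity)
  have hκ52 : (κ : ℝ) ^ (5 / 2 : ℝ) ≤ (K : ℝ) ^ (5 / 2 * θ) := by
    calc (κ : ℝ) ^ (5 / 2 : ℝ) ≤ ((K : ℝ) ^ θ) ^ (5 / 2 : ℝ) := by gcongr
      _ = (K : ℝ) ^ (5 / 2 * θ) := by rw [← Real.rpow_mul hKR.le]; ring_nf
  have hLge : (K : ℝ) ^ lam θ ≤ L := Nat.le_ceil _
  have hLone : (1 : ℝ) ≤ (K : ℝ) ^ lam θ := Real.one_le_rpow hK1 hl0.le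
  have hLle : (L : ℝ) ≤ 2 * (K : ℝ) ^ lam θ := by
    have := Nat.ceil_lt_add_one (a := (K : ℝ) ^ lam θ) (by positivity)
    linarith
  have hLK : L ≤ K := by
    have h3 : 2 * (K : ℝ) ^ lam θ ≤ K := by
      calc 2 * (K : ℝ) ^ lam θ ≤ (K : ℝ) ^ (1 - lam θ) * (K : ℝ) ^ lam θ := by gcongr
        _ = K := by rw [← Real.rpow_add hKR]; simp
    exact_mod_cast hLle.trans h3
  have h1 : C1 M * (As 0 * (κ : ℝ) ^ (5 / 2 : ℝ) * E) ≤ ν * (L : ℝ) ^ 2 := by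
    rw [div_le_iff₀ hν] at k2
    calc C1 M * (As 0 * (κ : ℝ) ^ (5 / 2 : ℝ) * E)
        = (C1 M * As 0 * E) * (κ : ℝ) ^ (5 / 2 : ℝ) := by ring
      _ ≤ ((K : ℝ) ^ (2 * lam θ - 5 / 2 * θ) * ν) * (K : ℝ) ^ (5 / 2 * θ) := by gcongr
      _ = ν * ((K : ℝ) ^ lam θ) ^ 2 := by
          rw [← Real.rpow_natCast ((K : ℝ) ^ lam θ) 2, ← Real.rpow_mul hKR.le]
          have : (K : ℝ) ^ (lam θ * ((2 : ℕ) : ℝ))
              = (K : ℝ) ^ (2 * lam θ - 5 / 2 * θ) * (K : ℝ) ^ (5 / 2 * θ) := by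
            rw [← Real.rpow_add hKR]
            congr 1
            push_cast
            ring
          rw [this]
          ring
      _ ≤ ν * (L : ℝ) ^ 2 := by gcongr
  have hff : ff M K L ≤ 2 ^ M * (K : ℝ) ^ (-3 : ℝ) := by
    refine (ff_le hM1 hK L).trans ?_
    have h5 : (L : ℝ) / K ≤ 2 * (K : ℝ) ^ (lam θ - 1) := by
      rw [div_le_iff₀ hKR]
      refine hLle.trans (le_of_eq ?_)
      rw [mul_assoc, ← Real.rpow_add_one hKR.ne']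
      ring_nf
    calc (K : ℝ) * ((L : ℝ) / K) ^ M ≤ K * (2 * (K : ℝ) ^ (lam θ - 1)) ^ M := by gcongr
      _ = 2 ^ M * (K * (K : ℝ) ^ ((lam θ - 1) * M)) := by
          rw [mul_pow, ← Real.rpow_natCast ((K : ℝ) ^ (lam θ - 1)) M, ← Real.rpow_mul hKR.le]
          ring
      _ = 2 ^ M * (K : ℝ) ^ ((lam θ - 1) * M + 1) := by
          rw [Real.rpow_add_one hKR.ne']
          ring
      _ ≤ 2 ^ M * (K : ℝ) ^ (-3 : ℝ) := by
          gcongr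
          nlinarith
  have hκ2 : (κ : ℝ) ^ (5 / 2 : ℝ) ≤ (K : ℝ) ^ (2 : ℝ) := by
    refine hκ52.trans ?_
    apply Real.rpow_le_rpow_of_exponent_le hK1
    linarith
  set ε : ℝ := D * (K : ℝ) ^ (-1 : ℝ) with hε
  have hε0 : 0 < ε := by positivity
  have hε1 : C1 M * (As 0 * (κ : ℝ) ^ (5 / 2 : ℝ) * E) * ff M K L * E ^ 2 ≤ ε := by
    have hff0 := ff_nonneg (M := M) hK L
    calc C1 M * (As 0 * (κ : ℝ) ^ (5 / 2 : ℝ) * E) * ff M K L * E ^ 2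
        ≤ C1 M * (As 0 * (K : ℝ) ^ (2 : ℝ) * E) * (2 ^ M * (K : ℝ) ^ (-3 : ℝ)) * E ^ 2 := by
          gcongr
      _ = C1 M * As 0 * E ^ 3 * 2 ^ M * ((K : ℝ) ^ (2 : ℝ) * (K : ℝ) ^ (-3 : ℝ)) := by ring
      _ = C1 M * As 0 * E ^ 3 * 2 ^ M * (K : ℝ) ^ (-1 : ℝ) := by
          rw [← Real.rpow_add hKR]
          norm_num
      _ ≤ ε := by
          rw [hε, hD]
          gcongr
          linarith
  have hXa : XX (phi M K) (amp (c a)) ≤ XM * (K : ℝ) ^ (-1 : ℝ) := by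
    have s1 := XX_summable (pol_phi hM1 hK) hR
    have s2 := XX_summable (pol_pow M) hR
    unfold XX at hXM ⊢
    rw [hXM, ← tsum_mul_right]
    refine s1.tsum_le_tsum (fun k => ?_) (s2.mul_right _)
    have h6 : phi M K k ≤ (N k : ℝ) ^ M * (K : ℝ) ^ (-1 : ℝ) := by
      refine (ff_le hM1 hK _).trans ?_
      rw [div_pow, Real.rpow_neg_one]
      have h7 : (K : ℝ) ^ 2 ≤ (K : ℝ) ^ M := pow_le_pow_right₀ hK1 (by omega)
      have h8 : (K : ℝ) * ((N k : ℝ) ^ M / (K : ℝ) ^ M) = (N k : ℝ) ^ M * (K / (K : ℝ) ^ M) := by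
        ring
      rw [h8]
      gcongr
      rw [div_le_iff₀ (by positivity)]
      calc (K : ℝ) = (K : ℝ)⁻¹ * (K : ℝ) ^ 2 := by field_simp
        _ ≤ (K : ℝ)⁻¹ * (K : ℝ) ^ M := by gcongr
    calc phi M K k * amp (c a) k ^ 2
        ≤ ((N k : ℝ) ^ M * (K : ℝ) ^ (-1 : ℝ)) * amp (c a) k ^ 2 := by gcongr
      _ = _ := by ring
  have hTa : 0 ≤ T - a := by linarith
  have hsm : Real.exp (1 / 2 * Real.log K) * (XX (phi M K) (amp (c a)) + 2 * ε * (T - a))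
      ≤ η ^ 2 := by
    have e1 : Real.exp (1 / 2 * Real.log K) = (K : ℝ) ^ (1 / 2 : ℝ) := by
      rw [Real.rpow_def_of_pos hKR]
      ring_nf
    rw [e1]
    have hη2 : 0 < η ^ 2 := by positivity
    rw [div_le_iff₀ hη2] at k4
    calc (K : ℝ) ^ (1 / 2 : ℝ) * (XX (phi M K) (amp (c a)) + 2 * ε * (T - a))
        ≤ (K : ℝ) ^ (1 / 2 : ℝ) * (XM * (K : ℝ) ^ (-1 : ℝ) + 2 * (D * (K : ℝ) ^ (-1 : ℝ)) * (T - a)) := by
          gcongr
      _ = ((K : ℝ) ^ (1 / 2 : ℝ) * (K : ℝ) ^ (-1 : ℝ)) * (XM + 2 * D * (T - a)) := by ring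
      _ ≤ ((K : ℝ) ^ (1 / 2 : ℝ) * (K : ℝ) ^ (-1 : ℝ)) * ((K : ℝ) ^ (1 / 2 : ℝ) * η ^ 2) := by
          gcongr
      _ = ((K : ℝ) ^ (1 / 2 : ℝ) * (K : ℝ) ^ (1 / 2 : ℝ) * (K : ℝ) ^ (-1 : ℝ)) * η ^ 2 := by ring
      _ = η ^ 2 := by
          rw [← Real.rpow_add hKR, ← Real.rpow_add hKR]
          norm_num
  have hb := barrier' h hm hν hmν ha hM1 hK hE0 hE2.ge hg0 hgc h1 h2 hη0.le hηeq.le hε0 hε1
    hG hsm
  refine h.high hm hν hmν ha hM1 hK hη0.le hb 4 ?_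
  calc C1 4 * (As (1 / 2) * 4 * η) ≤ C1 M * (As (1 / 2) * 4 * η) := by
        gcongr
        exact C1_mono hM4
    _ = ν := hηeq


/-- The integral of the enstrophy. -/
theorem int_X2 (h : FSol m T c) (hm : Pol m) (hν : 0 < ν)
    (hmν : ∀ k, 36 * ν * (N k : ℝ) ^ 2 ≤ m k) {a t : ℝ} (ha : 0 < a) (ht : t ∈ Ico a T) :
    ∫ τ in a..t, XX (fun k => (N k : ℝ) ^ 2) (amp (c τ))
      ≤ XX (fun _ => 1) (amp (c a)) / (72 * ν) := by
  have hsub : Icc a t ⊆ Ioo 0 T := fun τ hτ => ⟨ha.trans_le hτ.1, hτ.2.trans_lt ht.2⟩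
  have hd : ∀ s ∈ Icc a t, HasDerivAt (fun s => XX (fun _ => 1) (amp (c s)))
      (-(2 * XX (fun k => 1 * m k) (amp (c s))) - 2 * Win.prod (fun _ => 1) (c s)) s := fun s hs =>
    h.hasDerivAt_XX hm pol_one (hsub hs)
  have hle : ∀ s ∈ Icc a t, -(2 * XX (fun k => 1 * m k) (amp (c s)))
      - 2 * Win.prod (fun _ => 1) (c s) ≤ -(72 * ν * XX (fun k => (N k : ℝ) ^ 2) (amp (c s))) := by
    intro s hs
    have h1 := h.deriv_le hm hmν wt_one pol_one (hsub hs)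
    have e : C1 0 = 0 := by simp [C1]
    rw [e, zero_mul, add_zero] at h1
    simpa only [one_mul] using h1
  have hc : ContinuousOn (fun τ => XX (fun k => (N k : ℝ) ^ 2) (amp (c τ))) (Ioo 0 T) := fun τ hτ =>
    (h.hasDerivAt_XX hm (pol_pow 2) hτ).continuousAt.continuousWithinAt
  have hi : IntegrableOn (fun τ => XX (fun k => (N k : ℝ) ^ 2) (amp (c τ))) (Icc a t) :=
    (hc.mono hsub).integrableOn_Icc
  have key := intervalIntegral.sub_le_integral_of_hasDeriv_right_of_le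
    (φ := fun τ => -(72 * ν * XX (fun k => (N k : ℝ) ^ 2) (amp (c τ)))) ht.1
    (fun τ hτ => (hd τ hτ).continuousAt.continuousWithinAt)
    (fun τ hτ => (hd τ ⟨hτ.1.le, hτ.2.le⟩).hasDerivWithinAt)
    ((hi.const_mul (72 * ν)).neg) (fun τ hτ => hle τ ⟨hτ.1.le, hτ.2.le⟩)
  rw [intervalIntegral.integral_neg, intervalIntegral.integral_const_mul] at key
  have h0 : 0 ≤ XX (fun _ => 1) (amp (c t)) := XX_nonneg fun _ => zero_le_one
  rw [le_div_iff₀ (by positivity)]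
  linarith

end

end Pool.Agent.Q63.Win2
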