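import Pool.Agent.Q63.Win.Defs

/-!
Windows of frequencies without some of the frequencies.
-/

namespace Pool.Agent.Q63.Win2

open H459R3.NS Pool.Agent.Q63.Win

open scoped Classical in
/-- `∑ |k|^(2 s) |v̂(k)|²` over the frequencies `k` with `K^θ < |k| ≤ K` which are not in `Q`. -/
noncomputable def windowOff (s θ K : ℝ) (Q : Set K3) (v : V → V) : ℝ :=
  ∑' k : K3, if K ^ θ < len k ∧ len k ≤ K ∧ k ∉ Q then
    len k ^ (2 * s) * ∑ i, ‖fr (fun y => v y i) k‖ ^ 2 else 0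

/-- For each `R ≤ K` the set `Q` has at most `A R²` elements `k` with `K^θ < |k| ≤ R`. -/
def Thin (A θ K : ℝ) (Q : Set K3) : Prop :=
  ∀ R : ℝ, R ≤ K → ((Q ∩ {k | K ^ θ < len k ∧ len k ≤ R}).ncard : ℝ) ≤ A * R ^ 2

end Pool.Agent.Q63.Win2
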