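import Pool.Agent.Q63.Win2.Off
import Pool.Agent.Q63.Win.Main

/-!
Every window of frequencies `K^θ < |k| ≤ K` is critical at a blow-up, also after the removal of
thin sets of frequencies.
-/

open MeasureTheory Set Filter Topology
open scoped ENNReal

namespace Pool.Agent.Q63.Win2

open H459R3.NS Pool.Agent.Q63.Win

theorem Thin.mono {A B θ K : ℝ} {Q : Set K3} (h : Thin A θ K Q) (hAB : A ≤ B) : Thin B θ K Q :=
  fun R hR => (h R hR).trans (by gcongr)

/-- the solution starts at a positive time, and all parameters are chosen -/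
theorem off_window {ν T : ℝ} {u : ℝ → V → V} {p : ℝ → V → ℝ} (h : IsSol ν T u p) (hν : 0 < ν)
    (hub : ¬ ∃ C, ∀ t ∈ Ico 0 T, ∀ x i, |u t x i| ≤ C)
    {θ : ℝ} (hθ0 : 0 < θ) (hθ : θ < 4 / 5) {M : ℕ}
    (hM4 : 4 ≤ M) (hMl : 4 ≤ (M : ℝ) * (1 - lam ((θ + 4 / 5) / 2))) {s : ℝ} (hs0 : 0 ≤ s)
    (hs : s < 5 / 2) {t₀ : ℝ} (ht₀ : t₀ ∈ Ico 0 T) {A : ℝ → ℝ}
    (hA : Tendsto (fun K => A K / Real.log K) atTop (𝓝 0)) :
    ∀ᶠ K : ℝ in atTop, ∀ Q : ℝ → Set K3, (∀ t ∈ Ioo t₀ T, Thin (A K) θ K (Q t)) →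
      ∃ W : ℝ → ℝ, ContinuousOn W (Ioo 0 T) ∧ (∀ t, 0 ≤ W t) ∧
      (∀ t ∈ Ioo t₀ T, W t ≤ windowOff s θ K (Q t) (u t)) ∧ (t₀ + T) / 2 < T ∧
      t₀ < (t₀ + T) / 2 ∧ 0 < (t₀ + T) / 2 ∧
      ∀ g : ℝ → ℝ, (∀ t, 0 ≤ g t) → ContinuousOn g (Ioo 0 T) →
      (∀ t ∈ Ico ((t₀ + T) / 2) T, ∀ x : ℝ, 0 ≤ x → C1 M * (As s * (2 * x) ^ (5 / 2 - s) *
        Real.sqrt (W t)) ≤ ν / 2 * x ^ 2 + g t) →
      ¬ (∀ t ∈ Ico ((t₀ + T) / 2) T, ∫ τ in ((t₀ + T) / 2)..t, g τ ≤ 1 / 8 * Real.log K) := by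
  have hf := fsol_of_isSol h
  set θ' : ℝ := (θ + 4 / 5) / 2 with hθ'
  have hθ'0 : 0 < θ' := by rw [hθ']; linarith
  have hθ'1 : θ' < 4 / 5 := by rw [hθ']; linarith
  have hlt : θ < θ' := by rw [hθ']; linarith
  set a : ℝ := (t₀ + T) / 2 with ha
  have ha0 : 0 < a := by rw [ha]; linarith [ht₀.1, ht₀.2]
  have haT : a < T := by rw [ha]; linarith [ht₀.1, ht₀.2]
  have hta : t₀ < a := by rw [ha]; linarith [ht₀.1, ht₀.2]
  have hM1 : 1 ≤ M := by omega
  have hC1 := C1_pos hM1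
  set X1 : ℝ := XX (fun _ => 1) (amp (cof (u a))) with hX1
  have hX10 : 0 ≤ X1 := XX_nonneg fun _ => zero_le_one
  set D : ℝ := 8 * C1 M ^ 2 / ν * (X1 / (72 * ν)) + 1 with hD
  have hD0 : 0 < D := by positivity
  have hw := window' hf (msym_pol hν.le) hν (msym_ge hν.le) hθ'0 hθ'1 hM4 hMl ha0 haT
  have hfl : Tendsto (fun K : ℝ => ⌊K / 2⌋₊) atTop atTop :=
    tendsto_nat_floor_atTop.comp (tendsto_id.atTop_div_const (by norm_num))
  have c1 := hfl.eventually hw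
  have c2 : ∀ᶠ K : ℝ in atTop, 16 ≤ K := eventually_ge_atTop 16
  have c3 : ∀ᶠ K : ℝ in atTop, (4 : ℝ) ^ θ' ≤ K ^ (θ' - θ) :=
    (tendsto_rpow_atTop (by linarith)).eventually_ge_atTop _
  have c4 : ∀ᶠ K : ℝ in atTop, A K / Real.log K < 1 / (8 * D) :=
    hA.eventually (gt_mem_nhds (by positivity))
  filter_upwards [c1, c2, c3, c4] with K h1 h2 h3 h4 Q hQ
  set K' := ⌊K / 2⌋₊ with hK'
  have hK0 : 0 < K := by linarith
  have hlogK : 0 < Real.log K := Real.log_pos (by linarith)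
  have hK'le : (K' : ℝ) ≤ K / 2 := Nat.floor_le (by positivity)
  have hK'ge : K / 4 ≤ K' := by
    have := Nat.lt_floor_add_one (K / 2)
    rw [← hK'] at this
    linarith
  have hK'0 : (0 : ℝ) < K' := by linarith
  have hpow : K ^ θ ≤ (K' : ℝ) ^ θ' := by
    calc K ^ θ = K ^ θ' / K ^ (θ' - θ) := by
          rw [← Real.rpow_sub hK0]; ring_nf
      _ ≤ K ^ θ' / 4 ^ θ' := by gcongr
      _ = (K / 4) ^ θ' := by rw [Real.div_rpow hK0.le (by norm_num)]
      _ ≤ (K' : ℝ) ^ θ' := by gcongr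
  have hlog : 1 / 4 * Real.log K ≤ 1 / 2 * Real.log K' := by
    have h5 : Real.log K ≤ 2 * Real.log (K / 4) := by
      rw [← Real.log_rpow (by positivity)]
      apply Real.log_le_log hK0
      norm_num
      nlinarith
    have h6 : Real.log (K / 4) ≤ Real.log K' := Real.log_le_log (by positivity) hK'ge
    linarith
  set κ := ⌊(K' : ℝ) ^ θ'⌋₊ with hκ
  have hlo : ∀ n : ℕ, κ < n → K ^ θ < n := by
    intro n hn
    have h7 : (K' : ℝ) ^ θ' < n := (Nat.floor_lt (by positivity)).1 hn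
    exact hpow.trans_lt h7
  set B : ℝ := max (A K) 0 with hB
  have hB0 : 0 ≤ B := le_max_right _ _
  have hBlog : D * B ≤ 1 / 8 * Real.log K := by
    rcases le_total (A K) 0 with h5 | h5
    · rw [hB, max_eq_right h5, mul_zero]
      positivity
    · rw [hB, max_eq_left h5]
      rw [div_lt_div_iff₀ hlogK (by positivity)] at h4
      linarith
  refine ⟨fun t => offS s hB0 κ K' (amp (cof (u t))), offS_continuousOn hf s hB0 κ K',
    fun t => offS_nonneg _ _ _ _ _, fun t ht => ?_, haT, hta, ha0, ?_⟩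
  · exact offS_le hs0 hB0 hlo (by linarith) ((hQ t ht).mono (le_max_left _ _)) (u t)
  · intro g hg0 hgc hgx hint
    set X2 : ℝ → ℝ := fun t => XX (fun k => (N k : ℝ) ^ 2) (amp (cof (u t))) with hX2
    have hX20 : ∀ t, 0 ≤ X2 t := fun t => XX_nonneg fun k => by positivity
    have hX2c : ContinuousOn X2 (Ioo 0 T) := fun t ht =>
      (hf.hasDerivAt_XX (msym_pol hν.le) (pol_pow 2) ht).continuousAt.continuousWithinAt
    obtain ⟨C, hC⟩ := h1 (fun t => g t + 8 * C1 M ^ 2 / ν * B * X2 t)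
      (fun t => by
        have := hg0 t
        have := hX20 t
        positivity)
      (hgc.add (continuousOn_const.mul hX2c)) (fun t ht n => by
        have hR := (hf.rapV ⟨ha0.trans_le ht.1, ht.2⟩).rapR
        have e1 := SnW_le (amp_nonneg (cof (u t))) hR hs hB0 κ K' n
        have e2 := hgx t ht n (Nat.cast_nonneg n)
        have e3 := mul_le_mul_of_nonneg_left e1 hC1.le
        set y := Real.sqrt (X2 t) with hy
        have hy2 : X2 t = y ^ 2 := (Real.sq_sqrt (hX20 t)).symm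
        set b := Real.sqrt B with hb
        have hb2 : B = b ^ 2 := (Real.sq_sqrt hB0).symm
        have e4 : C1 M * (4 * b * n * y) ≤ ν / 2 * (n : ℝ) ^ 2 + 8 * C1 M ^ 2 / ν * B * X2 t := by
          rw [hb2, hy2]
          have e5 : ν / 2 * (n : ℝ) ^ 2 + 8 * C1 M ^ 2 / ν * b ^ 2 * y ^ 2 - C1 M * (4 * b * n * y)
              = (ν * n - 4 * C1 M * b * y) ^ 2 / (2 * ν) := by
            field_simp
            ring
          have e6 : 0 ≤ (ν * n - 4 * C1 M * b * y) ^ 2 / (2 * ν) := by positivity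
          linarith
        rw [mul_add] at e3
        linarith) fun t ht => by
        have hi1 : IntervalIntegrable g volume a t := by
          refine ContinuousOn.intervalIntegrable ?_
          rw [uIcc_of_le ht.1]
          exact hgc.mono fun r hr => ⟨ha0.trans_le hr.1, hr.2.trans_lt ht.2⟩
        have hi2 : IntervalIntegrable X2 volume a t := by
          refine ContinuousOn.intervalIntegrable ?_
          rw [uIcc_of_le ht.1]
          exact hX2c.mono fun r hr => ⟨ha0.trans_le hr.1, hr.2.trans_lt ht.2⟩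
        rw [intervalIntegral.integral_add hi1 (hi2.const_mul _),
          intervalIntegral.integral_const_mul]
        have e1 := hint t ht
        have e2 := int_X2 hf (msym_pol hν.le) hν (msym_ge hν.le) ha0 ht
        have e3 : 8 * C1 M ^ 2 / ν * B * ∫ τ in a..t, X2 τ ≤ D * B := by
          calc 8 * C1 M ^ 2 / ν * B * ∫ τ in a..t, X2 τ
              ≤ 8 * C1 M ^ 2 / ν * B * (X1 / (72 * ν)) := by gcongr
            _ = (8 * C1 M ^ 2 / ν * (X1 / (72 * ν))) * B := by ring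
            _ ≤ D * B := by
              gcongr
              rw [hD]
              linarith
        linarith
    exact hub (bounded_of_XX h hν ha0 haT hC)

theorem blowup_off {θ : ℝ} (hθ0 : 0 < θ) (hθ : θ < 4 / 5) {s : ℝ} (hs1 : 1 / 2 < s)
    (hs2 : s < 5 / 2) : ∃ a > 0, ∀ (ν T : ℝ) (u : ℝ → V → V) (p : ℝ → V → ℝ), 0 < ν →
      IsSol ν T u p → (¬ ∃ C, ∀ t ∈ Ico 0 T, ∀ x i, |u t x i| ≤ C) → ∀ t₀ ∈ Ico 0 T,
      ∀ A : ℝ → ℝ, Tendsto (fun K => A K / Real.log K) atTop (𝓝 0) →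
      ∀ᶠ K : ℝ in atTop, ∀ Q : ℝ → Set K3, (∀ t ∈ Ioo t₀ T, Thin (A K) θ K (Q t)) →
      ENNReal.ofReal (a * ν ^ ((5 - 2 * s) / (2 * s - 1)) * Real.log K)
        ≤ ∫⁻ t in Ioo t₀ T, ENNReal.ofReal (windowOff s θ K (Q t) (u t) ^ (2 / (2 * s - 1))) := by
  obtain ⟨M, hM4, hMl⟩ := exists_M (θ := (θ + 4 / 5) / 2) (by linarith)
  have hM1 : 1 ≤ M := by omega
  have hQc := Qc_pos hM1 hs2
  have h2s : 0 < 2 * s - 1 := by linarith
  set e : ℝ := 2 / (2 * s - 1) with he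
  have he0 : 0 ≤ e := by positivity
  set b : ℝ := (5 - 2 * s) / (2 * s - 1) with hb
  refine ⟨1 / (8 * Qc M s) * (1 / 2) ^ b, by positivity,
    fun ν T u p hν h hub t₀ ht₀ A hA => ?_⟩
  filter_upwards [off_window h hν hub hθ0 hθ hM4 hMl (by linarith : (0 : ℝ) ≤ s) hs2 ht₀ hA,
    eventually_ge_atTop (1 : ℝ)] with K hK hK1 Q hQ
  obtain ⟨W, hWc, hW0, hWle, haT, hta, ha0, hno⟩ := hK Q hQ
  by_contra hcon
  rw [not_le] at hcon
  set a : ℝ := (t₀ + T) / 2 with ha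
  have hWe : ContinuousOn (fun t => W t ^ e) (Ioo 0 T) :=
    hWc.rpow_const fun t _ => Or.inr he0
  have hν2 : 0 < ν / 2 := by positivity
  refine hno (fun t => (ν / 2) ^ (-b) * Qc M s * W t ^ e) (fun t => ?_)
    (continuousOn_const.mul hWe)
    (fun t ht x hx => cond_high hM1 hs1 hs2 hν2 (hW0 t) hx) fun t ht => ?_
  · have := hW0 t
    positivity
  · have hsub : Icc a t ⊆ Ioo 0 T := fun r hr => ⟨ha0.trans_le hr.1, hr.2.trans_lt ht.2⟩
    have hint : IntegrableOn (fun r => W r ^ e) (Ioc a t) := by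
      refine IntegrableOn.mono_set ?_ Ioc_subset_Icc_self
      exact (hWe.mono hsub).integrableOn_Icc
    rw [intervalIntegral.integral_const_mul, intervalIntegral.integral_of_le ht.1]
    have hval : ∫ r in Ioc a t, W r ^ e
        ≤ 1 / (8 * Qc M s) * (1 / 2) ^ b * ν ^ b * Real.log K := by
      have hlogK : 0 ≤ Real.log K := Real.log_nonneg hK1
      rw [integral_eq_lintegral_of_nonneg_ae
        (Filter.Eventually.of_forall fun r => Real.rpow_nonneg (hW0 r) e)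
        hint.aestronglyMeasurable]
      have hrhs : 0 ≤ 1 / (8 * Qc M s) * (1 / 2) ^ b * ν ^ b * Real.log K := by positivity
      refine ENNReal.toReal_le_of_le_ofReal hrhs ?_
      refine le_trans ?_ hcon.le
      have hmono : ∫⁻ r in Ioc a t, ENNReal.ofReal (W r ^ e)
          ≤ ∫⁻ r in Ioo t₀ T, ENNReal.ofReal (W r ^ e) :=
        lintegral_mono_set fun r hr => ⟨hta.trans hr.1, hr.2.trans_lt ht.2⟩
      refine hmono.trans (setLIntegral_mono' measurableSet_Ioo fun r hr => ?_)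
      exact ENNReal.ofReal_le_ofReal (Real.rpow_le_rpow (hW0 r) (hWle r hr) he0)
    have e1 : (ν / 2) ^ (-b) * ((1 / 2) ^ b * ν ^ b) = 1 := by
      rw [← Real.mul_rpow (by norm_num) hν.le, show 1 / 2 * ν = ν / 2 by ring,
        ← Real.rpow_add hν2]
      simp
    calc (ν / 2) ^ (-b) * Qc M s * ∫ r in Ioc a t, W r ^ e
        ≤ (ν / 2) ^ (-b) * Qc M s *
          (1 / (8 * Qc M s) * (1 / 2) ^ b * ν ^ b * Real.log K) := by gcongr
      _ = ((ν / 2) ^ (-b) * ((1 / 2) ^ b * ν ^ b)) * (1 / 8 * Real.log K) := by field_simp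
      _ = 1 / 8 * Real.log K := by rw [e1, one_mul]

theorem blowup_off_half {θ : ℝ} (hθ0 : 0 < θ) (hθ : θ < 4 / 5) :
    ∃ c > 0, ∀ (ν T : ℝ) (u : ℝ → V → V) (p : ℝ → V → ℝ), 0 < ν →
      IsSol ν T u p → (¬ ∃ C, ∀ t ∈ Ico 0 T, ∀ x i, |u t x i| ≤ C) → ∀ t₀ ∈ Ico 0 T,
      ∀ A : ℝ → ℝ, Tendsto (fun K => A K / Real.log K) atTop (𝓝 0) →
      ∀ᶠ K : ℝ in atTop, ∀ Q : ℝ → Set K3, (∀ t ∈ Ioo t₀ T, Thin (A K) θ K (Q t)) →
      ∃ t ∈ Ioo t₀ T, c * ν ^ 2 < windowOff (1 / 2) θ K (Q t) (u t) := by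
  obtain ⟨M, hM4, hMl⟩ := exists_M (θ := (θ + 4 / 5) / 2) (by linarith)
  have hM1 : 1 ≤ M := by omega
  have hC := C1_pos hM1
  have hA' := As_pos (s := 1 / 2) (by norm_num)
  refine ⟨(1 / (C1 M * (As (1 / 2) * 8))) ^ 2, by positivity,
    fun ν T u p hν h hub t₀ ht₀ A hA => ?_⟩
  filter_upwards [off_window h hν hub hθ0 hθ hM4 hMl (by norm_num : (0 : ℝ) ≤ 1 / 2)
    (by norm_num) ht₀ hA, eventually_ge_atTop (1 : ℝ)] with K hK hK1 Q hQ
  obtain ⟨W, hWc, hW0, hWle, haT, hta, ha0, hno⟩ := hK Q hQ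
  by_contra hcon
  push Not at hcon
  refine hno (fun _ => 0) (fun _ => le_rfl) continuousOn_const (fun t ht x hx => ?_) fun t ht => ?_
  · have htI : t ∈ Ioo t₀ T := ⟨hta.trans_le ht.1, ht.2⟩
    have h1 : Real.sqrt (W t) ≤ 1 / (C1 M * (As (1 / 2) * 8)) * ν := by
      rw [← Real.sqrt_sq (by positivity : 0 ≤ 1 / (C1 M * (As (1 / 2) * 8)) * ν), mul_pow]
      exact Real.sqrt_le_sqrt ((hWle t htI).trans (hcon t htI))
    have h2 : (2 * x) ^ ((5 : ℝ) / 2 - 1 / 2) = 4 * x ^ 2 := by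
      have : ((5 : ℝ) / 2 - 1 / 2) = ((2 : ℕ) : ℝ) := by norm_num
      rw [this, Real.rpow_natCast]
      ring
    rw [h2, add_zero]
    calc C1 M * (As (1 / 2) * (4 * x ^ 2) * Real.sqrt (W t))
        ≤ C1 M * (As (1 / 2) * (4 * x ^ 2) * (1 / (C1 M * (As (1 / 2) * 8)) * ν)) := by gcongr
      _ = ν / 2 * x ^ 2 := by field_simp; ring
  · simp only [intervalIntegral.integral_zero]
    have := Real.log_nonneg hK1
    positivity

end Pool.Agent.Q63.Win2
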