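import Pool.Agent.Q63.Win2.Asy
import Pool.Agent.Q63.Win2.Defs

/-!
Removing thin sets of frequencies from a window.
-/

open MeasureTheory Set Filter Topology
open scoped ENNReal

namespace Pool.Agent.Q63.Win2

open H459R3.NS Pool.Agent.Q63.Win

open scoped Classical in
/-- the thin subsets of a window -/
noncomputable def fam (A : ℝ) (κ K : ℕ) : Finset (Finset K3) :=
  (box K \ box κ).powerset.filter fun F =>
    ∀ n : ℕ, ((F.filter fun l => N l ≤ 2 * n).card : ℝ) ≤ 16 * A * (n : ℝ) ^ 2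

theorem mem_fam {A : ℝ} {κ K : ℕ} {F : Finset K3} : F ∈ fam A κ K ↔ F ⊆ box K \ box κ ∧
    ∀ n : ℕ, ((F.filter fun l => N l ≤ 2 * n).card : ℝ) ≤ 16 * A * (n : ℝ) ^ 2 := by
  classical
  unfold fam
  simp only [Finset.mem_filter, Finset.mem_powerset]

theorem fam_nonempty {A : ℝ} (hA : 0 ≤ A) (κ K : ℕ) : (fam A κ K).Nonempty :=
  ⟨∅, mem_fam.2 ⟨Finset.empty_subset _, fun n => by simp; positivity⟩⟩

/-- the part of the window off `F` -/
noncomputable def winF (s : ℝ) (κ K : ℕ) (F : Finset K3) (w : K3 → ℝ) : ℝ :=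
  ∑ l ∈ (box K \ box κ) \ F, (N l : ℝ) ^ (2 * s) * w l ^ 2

theorem winF_nonneg (s : ℝ) (κ K : ℕ) (F : Finset K3) (w : K3 → ℝ) : 0 ≤ winF s κ K F w :=
  Finset.sum_nonneg fun _ _ => by positivity

/-- the smallest part of the window off a thin set -/
noncomputable def offS (s : ℝ) {A : ℝ} (hA : 0 ≤ A) (κ K : ℕ) (w : K3 → ℝ) : ℝ :=
  (fam A κ K).inf' (fam_nonempty hA κ K) fun F => winF s κ K F w

theorem offS_nonneg (s : ℝ) {A : ℝ} (hA : 0 ≤ A) (κ K : ℕ) (w : K3 → ℝ) : 0 ≤ offS s hA κ K w :=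
  Finset.le_inf' _ _ fun F _ => winF_nonneg s κ K F w

theorem offS_continuousOn {m : K3 → ℝ} {T : ℝ} {c : ℝ → Fam} (h : FSol m T c) (s : ℝ) {A : ℝ}
    (hA : 0 ≤ A) (κ K : ℕ) : ContinuousOn (fun t => offS s hA κ K (amp (c t))) (Ioo 0 T) := by
  unfold offS
  refine ContinuousOn.finset_inf'_apply _ fun F _ => ?_
  unfold winF
  refine continuousOn_finsetSum _ fun l _ => ?_
  refine continuousOn_const.mul fun t ht => ?_
  exact (h.esq t ht l).continuousAt.continuousWithinAt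

theorem SnW_le {w : K3 → ℝ} (hw : ∀ k, 0 ≤ w k) (hr : RapR w) {s : ℝ} (hs : s < 5 / 2) {A : ℝ}
    (hA : 0 ≤ A) (κ K n : ℕ) :
    SnW w κ K (2 * n) ≤ As s * (2 * (n : ℝ)) ^ (5 / 2 - s) * Real.sqrt (offS s hA κ K w)
      + 4 * Real.sqrt A * n * Real.sqrt (XX (fun k => (N k : ℝ) ^ 2) w) := by
  classical
  obtain ⟨F, hF, hFe⟩ := Finset.exists_mem_eq_inf' (fam_nonempty hA κ K) fun F => winF s κ K F w
  obtain ⟨hF1, hF2⟩ := mem_fam.1 hF
  set S := (box (2 * n)).filter fun l => κ < N l ∧ N l ≤ K with hS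
  have hsplit : SnW w κ K (2 * n) = ∑ l ∈ S.filter (fun l => l ∉ F), (N l : ℝ) * w l
      + ∑ l ∈ S.filter (fun l => l ∈ F), (N l : ℝ) * w l := by
    unfold SnW
    rw [add_comm, Finset.sum_filter_add_sum_filter_not]
  have h1 : ∑ l ∈ S.filter (fun l => l ∉ F), (N l : ℝ) * w l
      ≤ As s * (2 * (n : ℝ)) ^ (5 / 2 - s) * Real.sqrt (offS s hA κ K w) := by
    have h := cs_sum (w := w) (F := S.filter (fun l => l ∉ F)) (R := 2 * n) (s := s)
      (Bd := Real.sqrt (offS s hA κ K w))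
      ((Finset.filter_subset _ _).trans (Finset.filter_subset _ _)) (fun h => ?_) hs ?_
      (Real.sqrt_nonneg _)
    · have hcast : ((2 * n : ℕ) : ℝ) = 2 * (n : ℝ) := by push_cast; ring
      rw [hcast] at h
      exact h
    · rw [Finset.mem_filter, hS, Finset.mem_filter, N_eq_zero.2 rfl] at h
      exact absurd h.1.2.1 (Nat.not_lt_zero _)
    · rw [Real.sq_sqrt (offS_nonneg _ _ _ _ _)]
      unfold offS
      rw [hFe]
      unfold winF
      refine Finset.sum_le_sum_of_subset_of_nonneg (fun l hl => ?_) fun _ _ _ => by positivity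
      rw [Finset.mem_filter, hS, Finset.mem_filter] at hl
      rw [Finset.mem_sdiff, Finset.mem_sdiff, mem_box, mem_box, not_le]
      exact ⟨⟨hl.1.2.2, hl.1.2.1⟩, hl.2⟩
  have h2 : ∑ l ∈ S.filter (fun l => l ∈ F), (N l : ℝ) * w l
      ≤ 4 * Real.sqrt A * n * Real.sqrt (XX (fun k => (N k : ℝ) ^ 2) w) := by
    have hcs := Real.sum_mul_le_sqrt_mul_sqrt (S.filter (fun l => l ∈ F)) (fun _ => (1 : ℝ))
      fun l => (N l : ℝ) * w l
    simp only [one_mul, one_pow, Finset.sum_const, nsmul_eq_mul, mul_one] at hcs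
    refine hcs.trans ?_
    have hc : ((S.filter (fun l => l ∈ F)).card : ℝ) ≤ 16 * A * (n : ℝ) ^ 2 := by
      refine le_trans ?_ (hF2 n)
      have : S.filter (fun l => l ∈ F) ⊆ F.filter fun l => N l ≤ 2 * n := by
        intro l hl
        rw [Finset.mem_filter, hS, Finset.mem_filter, mem_box] at hl
        exact Finset.mem_filter.2 ⟨hl.2, hl.1.1⟩
      exact_mod_cast Finset.card_le_card this
    have hc' : Real.sqrt ((S.filter (fun l => l ∈ F)).card : ℝ) ≤ 4 * Real.sqrt A * n := by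
      refine (Real.sqrt_le_sqrt hc).trans (le_of_eq ?_)
      rw [show 16 * A * (n : ℝ) ^ 2 = A * (4 * n) ^ 2 by ring, Real.sqrt_mul hA,
        Real.sqrt_sq (by positivity)]
      ring
    have hx : ∑ l ∈ S.filter (fun l => l ∈ F), ((N l : ℝ) * w l) ^ 2
        ≤ XX (fun k => (N k : ℝ) ^ 2) w := by
      simp_rw [mul_pow]
      exact (XX_summable (pol_pow 2) hr).sum_le_tsum _ fun l _ => by positivity
    exact mul_le_mul hc' (Real.sqrt_le_sqrt hx) (Real.sqrt_nonneg _) (by positivity)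
  rw [hsplit]
  exact add_le_add h1 h2

open scoped Classical in
theorem windowOff_summable (s θ K : ℝ) (Q : Set K3) (v : V → V) : Summable fun k : K3 =>
    (if K ^ θ < len k ∧ len k ≤ K ∧ k ∉ Q then
    len k ^ (2 * s) * ∑ i, ‖fr (fun y => v y i) k‖ ^ 2 else 0) := by
  refine summable_of_ne_finset_zero (s := box ⌊K⌋₊) fun k hk => ?_
  rw [if_neg]
  rintro ⟨-, h, -⟩
  rw [mem_box, not_le] at hk
  have h1 : (N k : ℝ) ≤ K := (N_le_len k).trans h
  have h2 : N k ≤ ⌊K⌋₊ := Nat.le_floor h1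
  omega

theorem len_finite (R : ℝ) : {k : K3 | len k ≤ R}.Finite := by
  refine (Finset.finite_toSet (box ⌊R⌋₊)).subset fun k hk => ?_
  rw [Finset.mem_coe, mem_box]
  exact Nat.le_floor ((N_le_len k).trans hk)

/-- comparison of the two kinds of windows -/
theorem offS_le {s θ K : ℝ} (hs : 0 ≤ s) {A : ℝ} (hA : 0 ≤ A) {κ K' : ℕ}
    (hlo : ∀ n : ℕ, κ < n → K ^ θ < n) (hhi : 2 * (K' : ℝ) ≤ K) {Q : Set K3} (hQ : Thin A θ K Q)
    (v : V → V) : offS s hA κ K' (amp (cof v)) ≤ windowOff s θ K Q v := by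
  classical
  have hwin : ∀ l ∈ box K' \ box κ, K ^ θ < len l ∧ len l ≤ K := by
    intro l hl
    rw [Finset.mem_sdiff, mem_box, mem_box, not_le] at hl
    have a1 := N_le_len l
    have a2 := len_le l
    refine ⟨(hlo _ hl.2).trans_le a1, ?_⟩
    have : (N l : ℝ) ≤ K' := by exact_mod_cast hl.1
    linarith
  set F := (box K' \ box κ).filter fun l => l ∈ Q with hF
  have hFm : F ∈ fam A κ K' := by
    rw [mem_fam]
    refine ⟨Finset.filter_subset _ _, fun n => ?_⟩
    have h1 := hQ (min (4 * n) K) (min_le_right _ _)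
    have hfin : (Q ∩ {k | K ^ θ < len k ∧ len k ≤ min (4 * (n : ℝ)) K}).Finite :=
      (len_finite (min (4 * (n : ℝ)) K)).subset fun k hk => hk.2.2
    have h2 : (F.filter fun l => N l ≤ 2 * n).card
        ≤ (Q ∩ {k | K ^ θ < len k ∧ len k ≤ min (4 * (n : ℝ)) K}).ncard := by
      rw [← Set.ncard_coe_finset]
      refine Set.ncard_le_ncard (fun l hl => ?_) hfin
      rw [Finset.mem_coe, Finset.mem_filter, hF, Finset.mem_filter] at hl
      have h3 := hwin l hl.1.1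
      refine ⟨hl.1.2, h3.1, le_min ?_ h3.2⟩
      have a2 := len_le l
      have : (N l : ℝ) ≤ 2 * n := by exact_mod_cast hl.2
      linarith
    have h4 : ((F.filter fun l => N l ≤ 2 * n).card : ℝ)
        ≤ ((Q ∩ {k | K ^ θ < len k ∧ len k ≤ min (4 * (n : ℝ)) K}).ncard : ℝ) := by
      exact_mod_cast h2
    refine h4.trans (h1.trans ?_)
    have hK : 0 ≤ K := by
      have : (0 : ℝ) ≤ K' := Nat.cast_nonneg _
      linarith
    have h5 : 0 ≤ min (4 * (n : ℝ)) K := le_min (by positivity) hK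
    have h6 : min (4 * (n : ℝ)) K ^ 2 ≤ (4 * (n : ℝ)) ^ 2 :=
      pow_le_pow_left₀ h5 (min_le_left _ _) 2
    calc A * min (4 * (n : ℝ)) K ^ 2 ≤ A * (4 * (n : ℝ)) ^ 2 := by gcongr
      _ = _ := by ring
  refine (Finset.inf'_le (fun F => winF s κ K' F (amp (cof v))) hFm).trans ?_
  unfold winF windowOff
  refine le_trans ?_ ((windowOff_summable s θ K Q v).sum_le_tsum ((box K' \ box κ) \ F)
    fun k _ => ?_)
  · refine Finset.sum_le_sum fun l hl => ?_
    rw [Finset.mem_sdiff] at hl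
    have h1 := hwin l hl.1
    have h2 : l ∉ Q := fun h => hl.2 (Finset.mem_filter.2 ⟨hl.1, h⟩)
    rw [if_pos ⟨h1.1, h1.2, h2⟩, amp_sq]
    have a1 := N_le_len l
    have : 0 ≤ ∑ i, ‖cof v l i‖ ^ 2 := Finset.sum_nonneg fun _ _ => by positivity
    unfold cof at this ⊢
    gcongr
  · have : 0 ≤ len k := Real.sqrt_nonneg _
    split_ifs
    · have : 0 ≤ ∑ i, ‖fr (fun y => v y i) k‖ ^ 2 := Finset.sum_nonneg fun _ _ => by positivity
      positivity
    · exact le_rfl

end Pool.Agent.Q63.Win2
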